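import Pool.Agent.H.MP_88847a_mp.H

open Filter Topology Pool.Agent.H.MP_88847a_mp

namespace Pool.Agent.Results.MP_88847a_mp.Poly

theorem result (L : PeriodPair) :
    (∀ (N : ℕ) (β : ℂ), ∃ a b c,
      Conj L β (fun y : Fin N → ℂ => Jac L y ^ 2) (polyOp a b c)) ∧
    (∀ N : ℕ, (∃ y : Fin N → ℂ, Adm L y) ∧ ∀ y : Fin N → ℂ, Adm L y →
      AnalyticAt ℂ (uu L) y ∧ Jac L y ≠ 0 ∧ ∃ ℓ : (Fin N → ℂ) → ℂ, AnalyticAt ℂ ℓ y ∧
        ∀ᶠ y' in 𝓝 y, Complex.exp (ℓ y') = Jac L y' ^ 2) ∧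
    (∀ β : ℂ, β ≠ 0 → β ≠ 2 / 3 → ¬ ∃ a b c,
      Conj L β (fun y : Fin 1 → ℂ => Jac L y) (polyOp a b c)) := by
  refine ⟨fun N β => poly_form L β, fun N => ⟨exists_adm L N, fun y h =>
    ⟨analyticAt_uu' L h, Jac_ne L h,
      exists_log ((analyticAt_Jac L h).pow 2) (pow_ne_zero 2 (Jac_ne L h))⟩⟩, ?_⟩
  rintro β h0 h1 ⟨a, b, c, h⟩
  refine literal_fail L h0 h1 ?_ h
  have e4 : pd 0 (fun _ : Fin 1 → ℂ => (1 : ℂ)) = fun _ => 0 := by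
    ext u; simp [pd]
  have e5 : pd 0 (fun _ : Fin 1 → ℂ => (0 : ℂ)) = fun _ => 0 := by
    ext u; simp [pd]
  have : polyOp a b c (fun _ => 1) = fun u => MvPolynomial.eval u c := by
    ext u; simp [polyOp, e4, e5]
  rw [this]
  exact (MvPolynomial.continuous_eval c).continuousAt

end Pool.Agent.Results.MP_88847a_mp.Poly
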